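import Pool.Agent.helper26.BQ.B6bof
import Pool.Agent.helper76.BQ.T1

open Matrix Complex

namespace Pool.Agent.helper76.BQ

theorem B6b_t1b : B6b_T1b := fun _ _ hN _ hZ φ ξ k => siegel_summable hN hZ φ ξ k

variable {F : Type} [Field F] [NumberField F]

/-- B6b -/
theorem th1_eq {κ d : F} {v0 : F →+* ℝ} {g : ℕ} {δ : Fin 1 → F} {bas dua : Fin g → Fin 1 → Fin 3 → F}
    (hL : LB d δ bas dua) {φ : (Fin 1 → Fin 3 → F) → ℂ} {N : ℕ} (hN : 0 < N) {ψ : Sch g N}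
    (h1 : ∀ n : Fin g → ℤ, φ (∑ i, ((n i : F) / (N : F)) • bas i) = ψ (red N n))
    (h2 : ∀ x, φ x ≠ 0 → ∃ n : Fin g → ℤ, x = ∑ i, ((n i : F) / (N : F)) • bas i)
    (M : (F →+* ℝ) → Matrix (Fin 1) (Fin 1) ℝ) (z : Fin 2 → ℂ) (hS : IsSiegel (Zm κ d v0 bas M z)) (α : Fin 2) :
    th1 κ d v0 M φ z α = ∑ i, Th1 N ψ (Zm κ d v0 bas M z) i * dss (v0 d) (pl v0 (bas i 0)) z α :=
  th1_eq_of B6b_t1b hL hN h1 h2 M z hS α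

/-- B6c -/
theorem th2_eq {κ d : F} {v0 : F →+* ℝ} {g : ℕ} {δ : Fin 2 → F} {bas dua : Fin g → Fin 2 → Fin 3 → F}
    (hL : LB d δ bas dua) {φ : (Fin 2 → Fin 3 → F) → ℂ} {N : ℕ} (hN : 0 < N) {ψ : Sch g N}
    (h1 : ∀ n : Fin g → ℤ, φ (∑ i, ((n i : F) / (N : F)) • bas i) = ψ (red N n))
    (h2 : ∀ x, φ x ≠ 0 → ∃ n : Fin g → ℤ, x = ∑ i, ((n i : F) / (N : F)) • bas i)
    (M : (F →+* ℝ) → Matrix (Fin 2) (Fin 2) ℝ) (z : Fin 2 → ℂ) (hS : IsSiegel (Zm κ d v0 bas M z)) :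
    th2 κ d v0 M φ z = ∑ i, ∑ j, Th2 N ψ (Zm κ d v0 bas M z) i j *
      (dss (v0 d) (pl v0 (bas i 0)) z 0 * dss (v0 d) (pl v0 (bas j 1)) z 1 -
       dss (v0 d) (pl v0 (bas i 0)) z 1 * dss (v0 d) (pl v0 (bas j 1)) z 0) :=
  th2_eq_of B6b_t1b hL hN h1 h2 M z hS

end Pool.Agent.helper76.BQ
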