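import Pool.Agent.helper76.BQ.TDefs
import Pool.Agent.helper76.BQ.BDefs
import Pool.Agent.helper76.BQ.BGood
import Pool.Agent.helper20.BQ.B5b

/-!
B6b, B6c: the theta forms in terms of Siegel theta series (conditional on T1b).
-/

open Matrix Complex

namespace Pool.Agent.helper76.BQ

/-- statement T1b -/
def B6b_T1b : Prop := ∀ (g N : ℕ), 0 < N → ∀ Z : Matrix (Fin g) (Fin g) ℂ, IsSiegel Z →
  ∀ (φ : Sch g N) (ξ : Fin g → ℂ) (k : ℕ),
    Summable (fun n : Fin g → ℤ => ‖φ (red N n)‖ * (1 + ∑ i, |(n i : ℝ)|) ^ k *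
      ‖cexp (-(Real.pi : ℂ) * qf Z (pt N n) + 2 * (Real.pi : ℂ) * I * ∑ i, ξ i * pt N n i)‖)

variable {F : Type} [Field F] [NumberField F]

theorem B6b_inj {k g : ℕ} {d : F} {δ : Fin k → F} {bas dua : Fin g → Fin k → Fin 3 → F}
    (hL : LB d δ bas dua) {N : ℕ} (hN : 0 < N) (v0 : F →+* ℝ) :
    Function.Injective (fun n : Fin g → ℤ => ∑ i, ((n i : F) / (N : F)) • bas i) := by
  intro n m hnm
  have hN' : (N : ℝ) ≠ 0 := Nat.cast_ne_zero.2 hN.ne'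
  have h := hL.inj (fun i => ((n i : ℝ) - (m i : ℝ)) / (N : ℝ)) (fun v l a => by
    have h1 := congrArg (fun x : Fin k → Fin 3 → F => v (x l a)) hnm
    simp only [Finset.sum_apply, Pi.smul_apply, smul_eq_mul, map_sum, map_mul, map_div₀,
      map_intCast, map_natCast] at h1
    rw [← sub_eq_zero, ← Finset.sum_sub_distrib] at h1
    rw [← h1]
    exact Finset.sum_congr rfl fun i _ => by ring)
  funext i
  have h2 := congrFun h i
  simp only [Pi.zero_apply, div_eq_zero_iff, hN', or_false] at h2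
  exact_mod_cast sub_eq_zero.1 h2

theorem B6b_tsum {k g : ℕ} {d : F} {δ : Fin k → F} {bas dua : Fin g → Fin k → Fin 3 → F}
    (hL : LB d δ bas dua) {N : ℕ} (hN : 0 < N) (v0 : F →+* ℝ) (f : (Fin k → Fin 3 → F) → ℂ)
    (hf : ∀ x, f x ≠ 0 → ∃ n : Fin g → ℤ, x = ∑ i, ((n i : F) / (N : F)) • bas i) :
    ∑' x, f x = ∑' n : Fin g → ℤ, f (∑ i, ((n i : F) / (N : F)) • bas i) := by
  symm
  refine (B6b_inj hL hN v0).tsum_eq ?_
  intro x hx
  obtain ⟨n, hn⟩ := hf x hx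
  exact ⟨n, hn.symm⟩

theorem B6b_expo {κ d : F} {v0 : F →+* ℝ} {k g : ℕ} (bas : Fin g → Fin k → Fin 3 → F)
    (M : (F →+* ℝ) → Matrix (Fin k) (Fin k) ℝ) (z : Fin 2 → ℂ) (N : ℕ) (n : Fin g → ℤ) :
    expo κ d v0 M (∑ i, ((n i : F) / (N : F)) • bas i) z = qf (Zm κ d v0 bas M z) (pt N n) := by
  have h := expo_eq_qf (κ := κ) (d := d) (v0 := v0) bas M z (fun i => (n i : ℚ) / (N : ℚ))
  have h1 : (∑ i, (((n i : ℚ) / (N : ℚ) : ℚ) : F) • bas i) =
      ∑ i, ((n i : F) / (N : F)) • bas i := by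
    refine Finset.sum_congr rfl fun i _ => ?_
    rw [Rat.cast_div, Rat.cast_intCast, Rat.cast_natCast]
  have h2 : (fun i => (((n i : ℚ) / (N : ℚ) : ℚ) : ℂ)) = pt N n := by
    funext i
    rw [pt, Rat.cast_div, Rat.cast_intCast, Rat.cast_natCast]
  rw [h1, h2] at h
  exact h

theorem B6b_dss {v0 : F →+* ℝ} {k g : ℕ} (bas : Fin g → Fin k → Fin 3 → F) (D : ℝ)
    (z : Fin 2 → ℂ) (N : ℕ) (n : Fin g → ℤ) (l : Fin k) (α : Fin 2) :
    dss D (pl v0 ((∑ i, ((n i : F) / (N : F)) • bas i) l)) z α =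
      ∑ i, pt N n i * dss D (pl v0 (bas i l)) z α := by
  have h1 : ∀ a : Fin 3, pl v0 ((∑ i, ((n i : F) / (N : F)) • bas i) l) a =
      ∑ i, pt N n i * pl v0 (bas i l) a := by
    intro a
    unfold pl
    rw [Finset.sum_apply, Finset.sum_apply, map_sum, Complex.ofReal_sum]
    refine Finset.sum_congr rfl fun i _ => ?_
    rw [Pi.smul_apply, Pi.smul_apply, smul_eq_mul, map_mul, map_div₀, map_intCast, map_natCast]
    push_cast
    rfl
  have h2 : bil D (pl v0 ((∑ i, ((n i : F) / (N : F)) • bas i) l)) (lift z) =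
      ∑ i, pt N n i * bil D (pl v0 (bas i l)) (lift z) := by
    unfold bil
    rw [h1, h1, h1, Finset.sum_mul, Finset.sum_mul, Finset.mul_sum, Finset.sum_mul,
      ← Finset.sum_add_distrib, ← Finset.sum_sub_distrib]
    exact Finset.sum_congr rfl fun i _ => by ring
  unfold dss
  rw [h1, h2, Finset.sum_mul, Finset.mul_sum, ← Finset.sum_add_distrib, Finset.sum_div]
  exact Finset.sum_congr rfl fun i _ => by ring

theorem B6b_pt_le {g N : ℕ} (hN : 0 < N) (n : Fin g → ℤ) (i : Fin g) :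
    ‖pt N n i‖ ≤ 1 + ∑ i, |(n i : ℝ)| := by
  have h1 : ‖pt N n i‖ = |(n i : ℝ)| / N := by
    rw [pt, norm_div, Complex.norm_intCast, Complex.norm_natCast]
  have hN' : (1 : ℝ) ≤ N := by exact_mod_cast hN
  have h2 : |(n i : ℝ)| ≤ ∑ i, |(n i : ℝ)| :=
    Finset.single_le_sum (f := fun i => |(n i : ℝ)|) (fun i _ => abs_nonneg _) (Finset.mem_univ i)
  rw [h1, div_le_iff₀ (by linarith)]
  have h3 : 0 ≤ |(n i : ℝ)| := abs_nonneg _
  nlinarith

theorem B6b_summable (T1 : B6b_T1b) {g N : ℕ} (hN : 0 < N) {Z : Matrix (Fin g) (Fin g) ℂ}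
    (hZ : IsSiegel Z) (ψ : Sch g N) (w : (Fin g → ℤ) → ℂ) (k : ℕ)
    (hw : ∀ n, ‖w n‖ ≤ (1 + ∑ i, |(n i : ℝ)|) ^ k) :
    Summable (fun n : Fin g → ℤ => ψ (red N n) * w n * cexp (-(Real.pi : ℂ) * qf Z (pt N n))) := by
  refine Summable.of_norm_bounded (T1 g N hN Z hZ ψ 0 k) fun n => ?_
  rw [norm_mul, norm_mul]
  have h : -(Real.pi : ℂ) * qf Z (pt N n) + 2 * (Real.pi : ℂ) * I *
      ∑ i, (0 : Fin g → ℂ) i * pt N n i = -(Real.pi : ℂ) * qf Z (pt N n) := by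
    simp
  rw [h]
  gcongr
  exact hw n

/-- B6b, conditional -/
theorem th1_eq_of (T1 : B6b_T1b) {κ d : F} {v0 : F →+* ℝ} {g : ℕ} {δ : Fin 1 → F}
    {bas dua : Fin g → Fin 1 → Fin 3 → F}
    (hL : LB d δ bas dua) {φ : (Fin 1 → Fin 3 → F) → ℂ} {N : ℕ} (hN : 0 < N) {ψ : Sch g N}
    (h1 : ∀ n : Fin g → ℤ, φ (∑ i, ((n i : F) / (N : F)) • bas i) = ψ (red N n))
    (h2 : ∀ x, φ x ≠ 0 → ∃ n : Fin g → ℤ, x = ∑ i, ((n i : F) / (N : F)) • bas i)
    (M : (F →+* ℝ) → Matrix (Fin 1) (Fin 1) ℝ) (z : Fin 2 → ℂ)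
    (hS : IsSiegel (Zm κ d v0 bas M z)) (α : Fin 2) :
    th1 κ d v0 M φ z α =
      ∑ i, Th1 N ψ (Zm κ d v0 bas M z) i * dss (v0 d) (pl v0 (bas i 0)) z α := by
  unfold th1
  rw [B6b_tsum hL hN v0 _ (fun x hx => h2 x (fun h => hx (by rw [h, zero_mul, zero_mul])))]
  have e1 : ∀ n : Fin g → ℤ,
      φ (∑ i, ((n i : F) / (N : F)) • bas i) *
        cexp (-(Real.pi : ℂ) * expo κ d v0 M (∑ i, ((n i : F) / (N : F)) • bas i) z) *
        dss (v0 d) (pl v0 ((∑ i, ((n i : F) / (N : F)) • bas i) 0)) z α =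
      ∑ i, (ψ (red N n) * pt N n i * cexp (-(Real.pi : ℂ) * qf (Zm κ d v0 bas M z) (pt N n))) *
        dss (v0 d) (pl v0 (bas i 0)) z α := by
    intro n
    rw [h1, B6b_expo, B6b_dss, Finset.mul_sum]
    exact Finset.sum_congr rfl fun i _ => by ring
  rw [tsum_congr e1, Summable.tsum_finsetSum]
  · refine Finset.sum_congr rfl fun i _ => ?_
    rw [tsum_mul_right, Th1]
  · intro i _
    refine Summable.mul_right _ (B6b_summable T1 hN hS ψ _ 1 fun n => ?_)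
    rw [pow_one]
    exact B6b_pt_le hN n i

/-- B6c, conditional -/
theorem th2_eq_of (T1 : B6b_T1b) {κ d : F} {v0 : F →+* ℝ} {g : ℕ} {δ : Fin 2 → F}
    {bas dua : Fin g → Fin 2 → Fin 3 → F}
    (hL : LB d δ bas dua) {φ : (Fin 2 → Fin 3 → F) → ℂ} {N : ℕ} (hN : 0 < N) {ψ : Sch g N}
    (h1 : ∀ n : Fin g → ℤ, φ (∑ i, ((n i : F) / (N : F)) • bas i) = ψ (red N n))
    (h2 : ∀ x, φ x ≠ 0 → ∃ n : Fin g → ℤ, x = ∑ i, ((n i : F) / (N : F)) • bas i)
    (M : (F →+* ℝ) → Matrix (Fin 2) (Fin 2) ℝ) (z : Fin 2 → ℂ)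
    (hS : IsSiegel (Zm κ d v0 bas M z)) :
    th2 κ d v0 M φ z = ∑ i, ∑ j, Th2 N ψ (Zm κ d v0 bas M z) i j *
      (dss (v0 d) (pl v0 (bas i 0)) z 0 * dss (v0 d) (pl v0 (bas j 1)) z 1 -
       dss (v0 d) (pl v0 (bas i 0)) z 1 * dss (v0 d) (pl v0 (bas j 1)) z 0) := by
  unfold th2
  rw [B6b_tsum hL hN v0 _ (fun x hx => h2 x (fun h => hx (by rw [h, zero_mul, zero_mul])))]
  have e1 : ∀ n : Fin g → ℤ,
      φ (∑ i, ((n i : F) / (N : F)) • bas i) *
        cexp (-(Real.pi : ℂ) * expo κ d v0 M (∑ i, ((n i : F) / (N : F)) • bas i) z) *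
        (dss (v0 d) (pl v0 ((∑ i, ((n i : F) / (N : F)) • bas i) 0)) z 0 *
          dss (v0 d) (pl v0 ((∑ i, ((n i : F) / (N : F)) • bas i) 1)) z 1 -
        dss (v0 d) (pl v0 ((∑ i, ((n i : F) / (N : F)) • bas i) 0)) z 1 *
          dss (v0 d) (pl v0 ((∑ i, ((n i : F) / (N : F)) • bas i) 1)) z 0) =
      ∑ i, ∑ j, (ψ (red N n) * (pt N n i * pt N n j) *
          cexp (-(Real.pi : ℂ) * qf (Zm κ d v0 bas M z) (pt N n))) *
        (dss (v0 d) (pl v0 (bas i 0)) z 0 * dss (v0 d) (pl v0 (bas j 1)) z 1 -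
         dss (v0 d) (pl v0 (bas i 0)) z 1 * dss (v0 d) (pl v0 (bas j 1)) z 0) := by
    intro n
    rw [h1, B6b_expo, B6b_dss, B6b_dss, B6b_dss, B6b_dss, Finset.sum_mul_sum, Finset.sum_mul_sum,
      ← Finset.sum_sub_distrib, Finset.mul_sum]
    refine Finset.sum_congr rfl fun i _ => ?_
    rw [← Finset.sum_sub_distrib, Finset.mul_sum]
    exact Finset.sum_congr rfl fun j _ => by ring
  have hsum : ∀ i j : Fin g, Summable (fun n : Fin g → ℤ => (ψ (red N n) * (pt N n i * pt N n j) *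
          cexp (-(Real.pi : ℂ) * qf (Zm κ d v0 bas M z) (pt N n))) *
        (dss (v0 d) (pl v0 (bas i 0)) z 0 * dss (v0 d) (pl v0 (bas j 1)) z 1 -
         dss (v0 d) (pl v0 (bas i 0)) z 1 * dss (v0 d) (pl v0 (bas j 1)) z 0)) := by
    intro i j
    refine Summable.mul_right _ (B6b_summable T1 hN hS ψ _ 2 fun n => ?_)
    rw [norm_mul, sq]
    exact mul_le_mul (B6b_pt_le hN n i) (B6b_pt_le hN n j) (norm_nonneg _)
      (by
        have h3 : 0 ≤ ∑ i, |(n i : ℝ)| := Finset.sum_nonneg fun i _ => abs_nonneg _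
        linarith)
  rw [tsum_congr e1, Summable.tsum_finsetSum]
  · refine Finset.sum_congr rfl fun i _ => ?_
    rw [Summable.tsum_finsetSum]
    · refine Finset.sum_congr rfl fun j _ => ?_
      rw [tsum_mul_right, Th2]
    · intro j _
      exact hsum i j
  · intro i _
    exact summable_sum fun j _ => hsum i j

end Pool.Agent.helper76.BQ
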