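import Pool.Agent.helper76.BQ.TDefs

/-!
T5: the symplectic group over the integers is generated by the matrices `T S`, `U a`, `J k`.
-/

open Matrix

namespace Pool.Agent.helper76.BQ

variable {g : ℕ}

/-! ### Symplectic matrices -/

theorem T5_isSp_iff (M : Matrix (Fin g ⊕ Fin g) (Fin g ⊕ Fin g) ℤ) :
    IsSp M ↔ M ∈ Matrix.symplecticGroup (Fin g) ℤ := by
  rw [SymplecticGroup.mem_iff']
  conv_rhs => rw [← fromBlocks_toBlocks M]
  unfold IsSp
  set a := M.toBlocks₁₁
  set b := M.toBlocks₁₂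
  set c := M.toBlocks₂₁
  set d := M.toBlocks₂₂
  rw [Matrix.J, fromBlocks_transpose, fromBlocks_multiply, fromBlocks_multiply, fromBlocks_inj]
  simp only [mul_zero, mul_one, zero_add, add_zero, mul_neg, neg_mul]
  constructor
  · rintro ⟨h1, h2, h3⟩
    refine ⟨by rw [h2]; abel, ?_, ?_, by rw [h3]; abel⟩
    · rw [← h1]; abel
    · have h4 := congrArg Matrix.transpose h1
      simp only [transpose_sub, transpose_mul, transpose_transpose, transpose_one] at h4
      rw [← h4]; abel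
  · rintro ⟨h1, h2, -, h4⟩
    refine ⟨?_, ?_, ?_⟩
    · rw [← neg_inj, ← h2]; abel
    · rw [← sub_eq_zero, ← neg_eq_zero, ← h1]; abel
    · rw [← sub_eq_zero, ← neg_eq_zero, ← h4]; abel

theorem T5_isSp_mul {A B : Matrix (Fin g ⊕ Fin g) (Fin g ⊕ Fin g) ℤ} (hA : IsSp A) (hB : IsSp B) :
    IsSp (A * B) :=
  (T5_isSp_iff _).2 (mul_mem ((T5_isSp_iff _).1 hA) ((T5_isSp_iff _).1 hB))

/-- The symplectic form. -/
def T5_om (v w : Fin g ⊕ Fin g → ℤ) : ℤ :=
  ∑ i, (v (Sum.inl i) * w (Sum.inr i) - v (Sum.inr i) * w (Sum.inl i))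

theorem T5_om_eq (v w : Fin g ⊕ Fin g → ℤ) :
    T5_om v w = -(v ⬝ᵥ (Matrix.J (Fin g) ℤ *ᵥ w)) := by
  have h : Matrix.J (Fin g) ℤ *ᵥ w =
      Sum.elim (-(fun i => w (Sum.inr i))) (fun i => w (Sum.inl i)) := by
    rw [Matrix.J, fromBlocks_mulVec]
    simp [Matrix.neg_mulVec]
    rfl
  rw [h, T5_om, dotProduct, Fintype.sum_sum_type]
  simp only [Sum.elim_inl, Sum.elim_inr, Pi.neg_apply, mul_neg, Finset.sum_neg_distrib,
    Finset.sum_sub_distrib]
  ring

theorem T5_om_mul {A : Matrix (Fin g ⊕ Fin g) (Fin g ⊕ Fin g) ℤ} (hA : IsSp A)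
    (v w : Fin g ⊕ Fin g → ℤ) : T5_om (A *ᵥ v) (A *ᵥ w) = T5_om v w := by
  have h := SymplecticGroup.mem_iff'.1 ((T5_isSp_iff A).1 hA)
  rw [T5_om_eq, T5_om_eq, neg_inj]
  conv_rhs => rw [← h]
  rw [← Matrix.vecMul_transpose A v, ← Matrix.dotProduct_mulVec, Matrix.mulVec_mulVec,
    Matrix.mulVec_mulVec]

/-- Basis vectors. -/
def T5_e (l : Fin g) : Fin g ⊕ Fin g → ℤ := Pi.single (Sum.inl l) 1

def T5_f (l : Fin g) : Fin g ⊕ Fin g → ℤ := Pi.single (Sum.inr l) 1

theorem T5_om_e (l : Fin g) (v : Fin g ⊕ Fin g → ℤ) : T5_om (T5_e l) v = v (Sum.inr l) := by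
  unfold T5_om T5_e
  simp only [Pi.single_apply, Sum.inl.injEq, reduceCtorEq, if_false, zero_mul, sub_zero, ite_mul,
    one_mul]
  simp

/-! ### Products of generators -/

theorem T5_gp_mul {A B : Matrix (Fin g ⊕ Fin g) (Fin g ⊕ Fin g) ℤ} (hA : GenProd A)
    (hB : GenProd B) : GenProd (A * B) := by
  induction hA with
  | one => simpa using hB
  | mul A1 B1 h1 _ ih => rw [Matrix.mul_assoc]; exact GenProd.mul _ _ h1 ih

theorem T5_gp_gen {A : Matrix (Fin g ⊕ Fin g) (Fin g ⊕ Fin g) ℤ} (hA : Gen A) : GenProd A := by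
  have h := GenProd.mul A 1 hA GenProd.one
  rwa [Matrix.mul_one] at h

/-- Symplectic matrices whose inverse is a product of generators. -/
def T5_Red (A : Matrix (Fin g ⊕ Fin g) (Fin g ⊕ Fin g) ℤ) : Prop :=
  IsSp A ∧ ∃ B, GenProd B ∧ B * A = 1

theorem T5_Red_mul {A B : Matrix (Fin g ⊕ Fin g) (Fin g ⊕ Fin g) ℤ} (hA : T5_Red A)
    (hB : T5_Red B) : T5_Red (A * B) := by
  obtain ⟨h1, A', h2, h3⟩ := hA
  obtain ⟨h4, B', h5, h6⟩ := hB
  refine ⟨T5_isSp_mul h1 h4, B' * A', T5_gp_mul h5 h2, ?_⟩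
  rw [Matrix.mul_assoc, ← Matrix.mul_assoc A', h3, Matrix.one_mul, h6]

theorem T5_Red_gp {A M : Matrix (Fin g ⊕ Fin g) (Fin g ⊕ Fin g) ℤ} (hA : T5_Red A)
    (h : GenProd (A * M)) : GenProd M := by
  obtain ⟨_, B, h2, h3⟩ := hA
  have h4 := T5_gp_mul h2 h
  rwa [← Matrix.mul_assoc, h3, Matrix.one_mul] at h4

theorem T5_isSp_one : IsSp (1 : Matrix (Fin g ⊕ Fin g) (Fin g ⊕ Fin g) ℤ) :=
  (T5_isSp_iff _).2 (one_mem _)

theorem T5_Red_one : T5_Red (1 : Matrix (Fin g ⊕ Fin g) (Fin g ⊕ Fin g) ℤ) :=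
  ⟨T5_isSp_one, 1, GenProd.one, Matrix.one_mul _⟩

/-! ### The generators -/

theorem T5_Red_T (S : Matrix (Fin g) (Fin g) ℤ) (hS : Sᵀ = S) : T5_Red (fromBlocks 1 0 S 1) := by
  refine ⟨?_, fromBlocks 1 0 (-S) 1, T5_gp_gen (Gen.T _ (by rw [transpose_neg, hS])), ?_⟩
  · unfold IsSp
    simp [hS]
  · rw [fromBlocks_multiply, ← fromBlocks_one]
    simp

theorem T5_Red_U (a b : Matrix (Fin g) (Fin g) ℤ) (h : a * b = 1) :
    T5_Red (fromBlocks a 0 0 bᵀ) := by
  have h' : b * a = 1 := mul_eq_one_comm.1 h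
  refine ⟨?_, fromBlocks b 0 0 aᵀ, T5_gp_gen (Gen.U _ _ h'), ?_⟩
  · unfold IsSp
    simp only [toBlocks_fromBlocks₁₁, toBlocks_fromBlocks₁₂, toBlocks_fromBlocks₂₁,
      toBlocks_fromBlocks₂₂, transpose_zero, zero_mul, mul_zero, sub_zero, and_true]
    rw [← transpose_mul, h', transpose_one]
  · rw [fromBlocks_multiply, ← fromBlocks_one]
    simp only [mul_zero, zero_mul, add_zero, zero_add, h', ← transpose_mul, transpose_one]

/-- The partial inversion. -/
def T5_J (D : Matrix (Fin g) (Fin g) ℤ) : Matrix (Fin g ⊕ Fin g) (Fin g ⊕ Fin g) ℤ :=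
  fromBlocks (1 - D) (-D) D (1 - D)

theorem T5_isSp_J (D : Matrix (Fin g) (Fin g) ℤ) (h1 : Dᵀ = D) (h2 : D * D = D) :
    IsSp (T5_J D) := by
  unfold IsSp T5_J
  simp only [toBlocks_fromBlocks₁₁, toBlocks_fromBlocks₁₂, toBlocks_fromBlocks₂₁,
      toBlocks_fromBlocks₂₂, transpose_sub, transpose_one, h1, transpose_neg, mul_neg, sub_neg_eq_add,
      sub_mul, mul_sub, one_mul, mul_one, h2, neg_mul]
  refine ⟨by abel, trivial, by abel⟩

theorem T5_J_mul (D E : Matrix (Fin g) (Fin g) ℤ) (h1 : D * E = 0) :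
    T5_J D * T5_J E = T5_J (D + E) := by
  unfold T5_J
  rw [fromBlocks_multiply, fromBlocks_inj]
  simp only [sub_mul, mul_sub, one_mul, mul_one, h1, neg_mul, mul_neg]
  refine ⟨by abel, by abel, by abel, by abel⟩

theorem T5_J_sq (D : Matrix (Fin g) (Fin g) ℤ) (h2 : D * D = D) :
    T5_J D * T5_J D * (T5_J D * T5_J D) = 1 := by
  have h : T5_J D * T5_J D = fromBlocks (1 - 2 • D) 0 0 (1 - 2 • D) := by
    unfold T5_J
    rw [fromBlocks_multiply, fromBlocks_inj]
    simp only [sub_mul, mul_sub, one_mul, mul_one, h2, neg_mul, mul_neg, two_smul]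
    refine ⟨by abel, by abel, by abel, by abel⟩
  rw [h, fromBlocks_multiply, ← fromBlocks_one, fromBlocks_inj]
  simp only [sub_mul, mul_sub, one_mul, mul_one, h2, mul_zero, zero_mul, two_smul, add_mul, mul_add,
    add_zero]
  refine ⟨by abel, by abel, by abel, by abel⟩

theorem T5_Red_of_J {D : Matrix (Fin g) (Fin g) ℤ} (h1 : Dᵀ = D) (h2 : D * D = D)
    (h3 : GenProd (T5_J D)) : T5_Red (T5_J D) := by
  refine ⟨T5_isSp_J D h1 h2, T5_J D * T5_J D * T5_J D, T5_gp_mul (T5_gp_mul h3 h3) h3, ?_⟩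
  rw [Matrix.mul_assoc, T5_J_sq D h2]

theorem T5_Red_J (k : Fin g) : T5_Red (T5_J (single k k 1)) :=
  T5_Red_of_J (by simp) (by simp) (T5_gp_gen (Gen.J k))

theorem T5_gp_JF (F : Finset (Fin g)) :
    GenProd (T5_J (diagonal (fun i => if i ∈ F then (1 : ℤ) else 0))) := by
  induction F using Finset.induction_on with
  | empty =>
    have h : T5_J (diagonal (fun i : Fin g => if i ∈ (∅ : Finset (Fin g)) then (1 : ℤ) else 0)) = 1 := by
      unfold T5_J
      simp
    rw [h]; exact GenProd.one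
  | insert k F hk ih =>
    have h0 : (single k k 1 : Matrix (Fin g) (Fin g) ℤ) = diagonal (fun i => if i = k then 1 else 0) := by
      ext i j
      rw [single_apply, diagonal_apply]
      by_cases hi : i = j
      · subst hi
        by_cases h : k = i
        · subst h; simp
        · simp [h, Ne.symm h]
      · rw [if_neg hi, if_neg]
        rintro ⟨h1, h2⟩
        exact hi (h1.symm.trans h2)
    have h1 : diagonal (fun i => if i ∈ insert k F then (1 : ℤ) else 0) =
        single k k 1 + diagonal (fun i => if i ∈ F then (1 : ℤ) else 0) := by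
      rw [h0, diagonal_add]
      congr 1
      funext i
      by_cases hi : i = k
      · subst hi; simp [hk]
      · simp [hi]
    have h2 : (single k k 1 : Matrix (Fin g) (Fin g) ℤ) *
        diagonal (fun i => if i ∈ F then (1 : ℤ) else 0) = 0 := by
      rw [h0, diagonal_mul_diagonal]
      rw [← diagonal_zero]
      congr 1
      funext i
      by_cases hi : i = k
      · subst hi; simp [hk]
      · simp [hi]
    rw [h1, ← T5_J_mul _ _ h2]
    exact T5_gp_mul (T5_gp_gen (Gen.J k)) ih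

theorem T5_gp_J1 : GenProd (T5_J (1 : Matrix (Fin g) (Fin g) ℤ)) := by
  have h := T5_gp_JF (Finset.univ : Finset (Fin g))
  simpa using h

theorem T5_gp_N (S : Matrix (Fin g) (Fin g) ℤ) (hS : Sᵀ = S) : GenProd (fromBlocks 1 S 0 1) := by
  have h : (fromBlocks 1 S 0 1 : Matrix (Fin g ⊕ Fin g) (Fin g ⊕ Fin g) ℤ) =
      T5_J 1 * T5_J 1 * T5_J 1 * fromBlocks 1 0 (-S) 1 * T5_J 1 := by
    unfold T5_J
    rw [fromBlocks_multiply, fromBlocks_multiply, fromBlocks_multiply, fromBlocks_multiply,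
      fromBlocks_inj]
    simp
  rw [h]
  exact T5_gp_mul (T5_gp_mul (T5_gp_mul (T5_gp_mul T5_gp_J1 T5_gp_J1) T5_gp_J1)
    (T5_gp_gen (Gen.T _ (by rw [transpose_neg, hS])))) T5_gp_J1

theorem T5_Red_N (S : Matrix (Fin g) (Fin g) ℤ) (hS : Sᵀ = S) : T5_Red (fromBlocks 1 S 0 1) := by
  refine ⟨?_, fromBlocks 1 (-S) 0 1, T5_gp_N _ (by rw [transpose_neg, hS]), ?_⟩
  · unfold IsSp
    simp [hS]
  · rw [fromBlocks_multiply, ← fromBlocks_one]
    simp

/-! ### Steps -/

/-- Admissible operations for column `k`. -/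
def T5_Fix (k : Fin g) (A : Matrix (Fin g ⊕ Fin g) (Fin g ⊕ Fin g) ℤ) : Prop :=
  T5_Red A ∧ ∀ l : Fin g, l < k → A *ᵥ T5_e l = T5_e l

theorem T5_Fix_mul {k : Fin g} {A B : Matrix (Fin g ⊕ Fin g) (Fin g ⊕ Fin g) ℤ}
    (hA : T5_Fix k A) (hB : T5_Fix k B) : T5_Fix k (A * B) :=
  ⟨T5_Red_mul hA.1 hB.1, fun l hl => by rw [← Matrix.mulVec_mulVec, hB.2 l hl, hA.2 l hl]⟩

/-- Admissible vectors for column `k`. -/
def T5_Ok (k : Fin g) (v : Fin g ⊕ Fin g → ℤ) : Prop :=
  (∀ l : Fin g, l < k → v (Sum.inr l) = 0) ∧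
    ∃ w : Fin g ⊕ Fin g → ℤ, (∀ l : Fin g, l < k → w (Sum.inr l) = 0) ∧ T5_om v w = 1

theorem T5_Ok_step {k : Fin g} {A : Matrix (Fin g ⊕ Fin g) (Fin g ⊕ Fin g) ℤ}
    (hA : T5_Fix k A) {v : Fin g ⊕ Fin g → ℤ} (hv : T5_Ok k v) : T5_Ok k (A *ᵥ v) := by
  have key : ∀ w : Fin g ⊕ Fin g → ℤ, (∀ l : Fin g, l < k → w (Sum.inr l) = 0) →
      ∀ l : Fin g, l < k → (A *ᵥ w) (Sum.inr l) = 0 := by
    intro w hw l hl
    have h3 := T5_om_e l (A *ᵥ w)
    rw [← h3]
    nth_rewrite 1 [← hA.2 l hl]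
    rw [T5_om_mul hA.1.1, T5_om_e, hw l hl]
  obtain ⟨h0, w, h1, h2⟩ := hv
  exact ⟨key v h0, A *ᵥ w, key w h1, by rw [T5_om_mul hA.1.1, h2]⟩

/-- The goal. -/
def T5_G (k : Fin g) (v : Fin g ⊕ Fin g → ℤ) : Prop :=
  ∃ A, T5_Fix k A ∧ A *ᵥ v = T5_e k

theorem T5_G_step {k : Fin g} {A : Matrix (Fin g ⊕ Fin g) (Fin g ⊕ Fin g) ℤ}
    (hA : T5_Fix k A) {v : Fin g ⊕ Fin g → ℤ} (hv : T5_G k (A *ᵥ v)) : T5_G k v := by
  obtain ⟨B, h1, h2⟩ := hv
  exact ⟨B * A, T5_Fix_mul h1 hA, by rw [← Matrix.mulVec_mulVec, h2]⟩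

theorem T5_elim (v : Fin g ⊕ Fin g → ℤ) :
    v = Sum.elim (fun i => v (Sum.inl i)) (fun i => v (Sum.inr i)) := by
  funext x
  cases x <;> rfl

/-- Effect of `T`. -/
theorem T5_T_vec (i : Fin g) (t : ℤ) (v : Fin g ⊕ Fin g → ℤ) :
    (fromBlocks 1 0 (single i i t) 1 : Matrix (Fin g ⊕ Fin g) (Fin g ⊕ Fin g) ℤ) *ᵥ v =
      Function.update v (Sum.inr i) (v (Sum.inr i) + t * v (Sum.inl i)) := by
  conv_lhs => rw [T5_elim v, fromBlocks_mulVec]
  funext x
  rcases x with x | x
  · simp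
  · by_cases hx : x = i
    · subst hx
      simp [single_mulVec, add_comm]
    · simp [single_mulVec, hx]

theorem T5_N_vec (i : Fin g) (t : ℤ) (v : Fin g ⊕ Fin g → ℤ) :
    (fromBlocks 1 (single i i t) 0 1 : Matrix (Fin g ⊕ Fin g) (Fin g ⊕ Fin g) ℤ) *ᵥ v =
      Function.update v (Sum.inl i) (v (Sum.inl i) + t * v (Sum.inr i)) := by
  conv_lhs => rw [T5_elim v, fromBlocks_mulVec]
  funext x
  rcases x with x | x
  · by_cases hx : x = i
    · subst hx
      simp [single_mulVec]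
    · simp [single_mulVec, hx]
  · simp

theorem T5_J_vec (i : Fin g) (v : Fin g ⊕ Fin g → ℤ) :
    T5_J (single i i 1) *ᵥ v =
      Function.update (Function.update v (Sum.inl i) (-v (Sum.inr i))) (Sum.inr i)
        (v (Sum.inl i)) := by
  unfold T5_J
  conv_lhs => rw [T5_elim v, fromBlocks_mulVec]
  funext x
  rcases x with x | x
  · by_cases hx : x = i
    · subst hx
      simp [single_mulVec, sub_mulVec, neg_mulVec]
    · simp [single_mulVec, sub_mulVec, neg_mulVec, hx]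
  · by_cases hx : x = i
    · subst hx
      simp [single_mulVec, sub_mulVec, neg_mulVec]
    · simp [single_mulVec, sub_mulVec, neg_mulVec, hx]

/-- The elementary matrix. -/
def T5_E (i j : Fin g) (t : ℤ) : Matrix (Fin g ⊕ Fin g) (Fin g ⊕ Fin g) ℤ :=
  fromBlocks (1 + single i j t) 0 0 (1 - single i j t)ᵀ

theorem T5_E_vec (i j : Fin g) (t : ℤ) (v : Fin g ⊕ Fin g → ℤ) (hij : i ≠ j) :
    T5_E i j t *ᵥ v =
      Function.update (Function.update v (Sum.inl i) (v (Sum.inl i) + t * v (Sum.inl j)))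
        (Sum.inr j) (v (Sum.inr j) - t * v (Sum.inr i)) := by
  unfold T5_E
  conv_lhs => rw [T5_elim v, fromBlocks_mulVec]
  funext x
  rcases x with x | x
  · by_cases hx : x = i
    · subst hx
      simp [single_mulVec, add_mulVec]
    · simp [single_mulVec, add_mulVec, hx]
  · by_cases hx : x = j
    · subst hx
      simp [single_mulVec, sub_mulVec, transpose_sub]
    · simp [single_mulVec, sub_mulVec, transpose_sub, hx]

theorem T5_Red_E (i j : Fin g) (t : ℤ) (hij : i ≠ j) : T5_Red (T5_E i j t) := by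
  refine T5_Red_U _ _ ?_
  have h : single i j t * single i j t = (0 : Matrix (Fin g) (Fin g) ℤ) :=
    single_mul_single_of_ne _ _ _ _ hij.symm _
  simp only [add_mul, mul_sub, mul_one, one_mul, h]
  abel

theorem T5_Fix_T (k i : Fin g) (t : ℤ) (hi : k ≤ i) :
    T5_Fix k (fromBlocks 1 0 (single i i t) 1) := by
  refine ⟨T5_Red_T _ (by simp), fun l hl => ?_⟩
  have hne : l ≠ i := ne_of_lt (lt_of_lt_of_le hl hi)
  rw [T5_T_vec]
  simp [T5_e, hne]

theorem T5_Fix_N (k i : Fin g) (t : ℤ) :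
    T5_Fix k (fromBlocks 1 (single i i t) 0 1) := by
  refine ⟨T5_Red_N _ (by simp), fun l hl => ?_⟩
  rw [T5_N_vec]
  simp [T5_e]

theorem T5_Fix_J (k i : Fin g) (hi : k ≤ i) : T5_Fix k (T5_J (single i i 1)) := by
  refine ⟨T5_Red_J _, fun l hl => ?_⟩
  have hne : l ≠ i := ne_of_lt (lt_of_lt_of_le hl hi)
  rw [T5_J_vec]
  funext x
  rcases x with x | x
  · by_cases hx : x = i
    · subst hx; simp [T5_e, hne.symm]
    · simp [T5_e, hx]
  · by_cases hx : x = i
    · subst hx; simp [T5_e, hne.symm]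
    · simp [T5_e, hx]

theorem T5_Fix_E (k i j : Fin g) (t : ℤ) (hij : i ≠ j) (hj : k ≤ j) : T5_Fix k (T5_E i j t) := by
  refine ⟨T5_Red_E _ _ _ hij, fun l hl => ?_⟩
  have hne : l ≠ j := ne_of_lt (lt_of_lt_of_le hl hj)
  rw [T5_E_vec _ _ _ _ hij]
  funext x
  rcases x with x | x
  · by_cases hx : x = i
    · subst hx; simp [T5_e, hne.symm]
    · simp [T5_e, hx]
  · by_cases hx : x = j
    · subst hx; simp [T5_e]
    · simp [T5_e, hx]

/-! ### Reduction of one vector -/

/-- Weight of one entry. -/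
def T5_wt : Fin g ⊕ Fin g → ℤ → ℕ
  | Sum.inl _, z => z.natAbs
  | Sum.inr _, z => 2 * z.natAbs

/-- The measure. -/
def T5_mu (v : Fin g ⊕ Fin g → ℤ) : ℕ := ∑ x, T5_wt x (v x)

theorem T5_mu_update (v : Fin g ⊕ Fin g → ℤ) (x : Fin g ⊕ Fin g) (z : ℤ) :
    T5_mu (Function.update v x z) + T5_wt x (v x) = T5_mu v + T5_wt x z := by
  unfold T5_mu
  rw [← Finset.add_sum_erase Finset.univ _ (Finset.mem_univ x),
    ← Finset.add_sum_erase Finset.univ (fun y => T5_wt y (v y)) (Finset.mem_univ x)]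
  have h : ∑ y ∈ Finset.univ.erase x, T5_wt y (Function.update v x z y) =
      ∑ y ∈ Finset.univ.erase x, T5_wt y (v y) := by
    refine Finset.sum_congr rfl fun y hy => ?_
    rw [Function.update_of_ne (Finset.ne_of_mem_erase hy)]
  rw [h, Function.update_self]
  omega

theorem T5_dec (a c : ℤ) (ha : a ≠ 0) (h : a.natAbs ≤ c.natAbs) :
    ∃ t : ℤ, (c + t * a).natAbs < c.natAbs := by
  rcases lt_or_gt_of_ne ha with h1 | h1
  · rcases le_total 0 c with h2 | h2
    · exact ⟨1, by omega⟩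
    · exact ⟨-1, by omega⟩
  · rcases le_total 0 c with h2 | h2
    · exact ⟨-1, by omega⟩
    · exact ⟨1, by omega⟩

/-- The vector `± e_j` can be moved to `e_k`. -/
theorem T5_final (k j : Fin g) (hj : k ≤ j) (ε : ℤ) (hε : ε * ε = 1) :
    T5_G k (Pi.single (Sum.inl j) ε) := by
  by_cases hjk : j = k
  · subst hjk
    have h1 : ε = 1 ∨ ε = -1 := mul_self_eq_one_iff.1 hε
    rcases h1 with h1 | h1
    · subst h1
      exact ⟨1, ⟨T5_Red_one, fun l _ => Matrix.one_mulVec _⟩, Matrix.one_mulVec _⟩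
    · subst h1
      refine ⟨_, T5_Fix_mul (T5_Fix_J j j le_rfl) (T5_Fix_J j j le_rfl), ?_⟩
      rw [← Matrix.mulVec_mulVec, T5_J_vec, T5_J_vec]
      funext x
      rcases x with x | x
      · by_cases hx : x = j
        · subst hx; simp [T5_e]
        · simp [T5_e, hx]
      · by_cases hx : x = j
        · subst hx; simp [T5_e]
        · simp [T5_e, hx]
  · refine ⟨_, T5_Fix_mul (T5_Fix_E k j k (-ε) hjk le_rfl) (T5_Fix_E k k j ε (Ne.symm hjk) hj), ?_⟩
    rw [← Matrix.mulVec_mulVec, T5_E_vec _ _ _ _ (Ne.symm hjk), T5_E_vec _ _ _ _ hjk]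
    funext x
    rcases x with x | x
    · by_cases hx : x = j
      · subst hx; simp [T5_e, hjk, hε]
      · by_cases hx2 : x = k
        · subst hx2; simp [T5_e, hx, hε]
        · simp [T5_e, hx, hx2]
    · by_cases hx : x = j
      · subst hx; simp [T5_e, hjk]
      · by_cases hx2 : x = k
        · subst hx2; simp [T5_e, hx]
        · simp [T5_e, hx, hx2]

theorem T5_red (k : Fin g) : ∀ (n : ℕ) (v : Fin g ⊕ Fin g → ℤ), T5_Ok k v → T5_mu v < n →
    T5_G k v := by
  intro n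
  induction n with
  | zero => intro v _ h; omega
  | succ n ih =>
    intro v hv hn
    by_cases h1 : ∃ i, k ≤ i ∧ v (Sum.inr i) ≠ 0
    · obtain ⟨i, hi, hc⟩ := h1
      by_cases ha : v (Sum.inl i) = 0
      · -- swap
        refine T5_G_step (T5_Fix_J k i hi) (ih _ (T5_Ok_step (T5_Fix_J k i hi) hv) ?_)
        rw [T5_J_vec]
        have e1 := T5_mu_update (Function.update v (Sum.inl i) (-v (Sum.inr i))) (Sum.inr i)
          (v (Sum.inl i))
        have e2 := T5_mu_update v (Sum.inl i) (-v (Sum.inr i))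
        have e3 : Function.update v (Sum.inl i) (-v (Sum.inr i)) (Sum.inr i) = v (Sum.inr i) := by
          simp
        rw [e3] at e1
        simp only [T5_wt, ha] at e1 e2 ⊢
        omega
      · rcases le_total (v (Sum.inl i)).natAbs (v (Sum.inr i)).natAbs with h2 | h2
        · obtain ⟨t, ht⟩ := T5_dec _ _ ha h2
          refine T5_G_step (T5_Fix_T k i t hi) (ih _ (T5_Ok_step (T5_Fix_T k i t hi) hv) ?_)
          rw [T5_T_vec]
          have e1 := T5_mu_update v (Sum.inr i) (v (Sum.inr i) + t * v (Sum.inl i))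
          simp only [T5_wt] at e1
          omega
        · obtain ⟨t, ht⟩ := T5_dec _ _ hc h2
          refine T5_G_step (T5_Fix_N k i t) (ih _ (T5_Ok_step (T5_Fix_N k i t) hv) ?_)
          rw [T5_N_vec]
          have e1 := T5_mu_update v (Sum.inl i) (v (Sum.inl i) + t * v (Sum.inr i))
          simp only [T5_wt] at e1
          omega
    · push Not at h1
      have hq : ∀ i, v (Sum.inr i) = 0 := by
        intro i
        rcases lt_or_ge i k with h | h
        · exact hv.1 i h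
        · exact h1 i h
      by_cases h2 : ∃ i j, i ≠ j ∧ k ≤ j ∧ v (Sum.inl j) ≠ 0 ∧
          (v (Sum.inl j)).natAbs ≤ (v (Sum.inl i)).natAbs
      · obtain ⟨i, j, hij, hj, hj0, hle⟩ := h2
        obtain ⟨t, ht⟩ := T5_dec _ _ hj0 hle
        refine T5_G_step (T5_Fix_E k i j t hij hj) (ih _ (T5_Ok_step (T5_Fix_E k i j t hij hj) hv) ?_)
        rw [T5_E_vec _ _ _ _ hij]
        have e0 : v (Sum.inr j) - t * v (Sum.inr i) =
            Function.update v (Sum.inl i) (v (Sum.inl i) + t * v (Sum.inl j)) (Sum.inr j) := by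
          rw [hq i]; simp
        rw [e0, Function.update_eq_self]
        have e1 := T5_mu_update v (Sum.inl i) (v (Sum.inl i) + t * v (Sum.inl j))
        simp only [T5_wt] at e1
        omega
      · push Not at h2
        obtain ⟨w, hw, hom⟩ := hv.2
        have hsum : ∑ i, v (Sum.inl i) * w (Sum.inr i) = 1 := by
          rw [← hom, T5_om]
          exact Finset.sum_congr rfl fun i _ => by rw [hq i]; ring
        obtain ⟨j, hj, hj0⟩ : ∃ j, k ≤ j ∧ v (Sum.inl j) ≠ 0 := by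
          by_contra hcon
          push Not at hcon
          have h3 : ∑ i, v (Sum.inl i) * w (Sum.inr i) = 0 := by
            refine Finset.sum_eq_zero fun i _ => ?_
            rcases lt_or_ge i k with h | h
            · rw [hw i h, mul_zero]
            · rw [hcon i h, zero_mul]
          rw [h3] at hsum
          exact absurd hsum (by norm_num)
        have h4 : ∀ i, i ≠ j → k ≤ i → v (Sum.inl i) = 0 := by
          intro i hij hi
          by_contra hi0
          have a1 := h2 i j hij hj hj0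
          have a2 := h2 j i (Ne.symm hij) hi hi0
          omega
        have h5 : v (Sum.inl j) * w (Sum.inr j) = 1 := by
          rw [← hsum]
          symm
          refine Finset.sum_eq_single j (fun i _ hij => ?_) (fun h => absurd (Finset.mem_univ j) h)
          rcases lt_or_ge i k with h | h
          · rw [hw i h, mul_zero]
          · rw [h4 i hij h, zero_mul]
        have h6 : v (Sum.inl j) = 1 ∨ v (Sum.inl j) = -1 := by
          have := Int.isUnit_iff.1 (IsUnit.of_mul_eq_one _ h5)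
          exact this
        have h7 : ∀ i, i ≠ j → v (Sum.inl i) = 0 := by
          intro i hij
          have a1 := h2 i j hij hj hj0
          rcases h6 with h6 | h6 <;> rw [h6] at a1 <;> simp at a1 <;> omega
        have h8 : v = Pi.single (Sum.inl j) (v (Sum.inl j)) := by
          funext x
          rcases x with x | x
          · by_cases hx : x = j
            · subst hx; simp
            · rw [h7 x hx]; simp [hx]
          · rw [hq x]; simp
        rw [h8]
        refine T5_final k j hj _ ?_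
        rcases h6 with h6 | h6 <;> rw [h6] <;> norm_num

/-! ### The theorem -/

theorem T5_col (M : Matrix (Fin g ⊕ Fin g) (Fin g ⊕ Fin g) ℤ) (x y : Fin g ⊕ Fin g) :
    (M *ᵥ (Pi.single y 1)) x = M x y := by
  simp

theorem T5_main : ∀ (n : ℕ) (M : Matrix (Fin g ⊕ Fin g) (Fin g ⊕ Fin g) ℤ), IsSp M →
    (∀ l : Fin g, l.val + n < g → M *ᵥ T5_e l = T5_e l) → GenProd M := by
  intro n
  induction n with
  | zero =>
    intro M hM h
    have ha : M.toBlocks₁₁ = 1 := by
      ext i j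
      have h1 := congrFun (h j (by simp)) (Sum.inl i)
      rw [T5_e, T5_col] at h1
      rw [toBlocks₁₁, Matrix.of_apply, h1, Matrix.one_apply]
      by_cases hij : i = j
      · subst hij; simp
      · simp [hij]
    have hc : M.toBlocks₂₁ = 0 := by
      ext i j
      have h1 := congrFun (h j (by simp)) (Sum.inr i)
      rw [T5_e, T5_col] at h1
      rw [toBlocks₂₁, Matrix.of_apply, h1, Matrix.zero_apply]
      simp
    obtain ⟨h1, -, h3⟩ := hM
    rw [ha, hc] at h1
    have hd : M.toBlocks₂₂ = 1 := by simpa using h1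
    rw [hd] at h3
    have hb : M.toBlocks₁₂ᵀ = M.toBlocks₁₂ := by simpa using h3
    rw [← fromBlocks_toBlocks M, ha, hc, hd]
    exact T5_gp_N _ hb
  | succ n ih =>
    intro M hM h
    rcases lt_or_ge n g with hn | hn
    · let k : Fin g := ⟨g - (n + 1), by omega⟩
      have hk : k.val = g - (n + 1) := rfl
      have hst : ∀ l : Fin g, l < k → M *ᵥ T5_e l = T5_e l := by
        intro l hl
        refine h l ?_
        have h1 : l.val < g - (n + 1) := hl
        omega
      have hz : ∀ w : Fin g ⊕ Fin g → ℤ, (∀ l : Fin g, l < k → w (Sum.inr l) = 0) →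
          ∀ l : Fin g, l < k → (M *ᵥ w) (Sum.inr l) = 0 := by
        intro w hw l hl
        rw [← T5_om_e l (M *ᵥ w)]
        nth_rewrite 1 [← hst l hl]
        rw [T5_om_mul hM, T5_om_e, hw l hl]
      have hOk : T5_Ok k (M *ᵥ T5_e k) := by
        refine ⟨hz _ (fun l _ => by simp [T5_e]), M *ᵥ T5_f k, hz _ (fun l hl => ?_), ?_⟩
        · simp [T5_f, ne_of_lt hl]
        · rw [T5_om_mul hM, T5_om_e]
          simp [T5_f]
      obtain ⟨A, hA, hAv⟩ := T5_red k _ _ hOk (Nat.lt_succ_self _)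
      refine T5_Red_gp hA.1 (ih (A * M) (T5_isSp_mul hA.1.1 hM) ?_)
      intro l hl
      rw [← Matrix.mulVec_mulVec]
      rcases lt_or_ge l k with h1 | h1
      · rw [hst l h1, hA.2 l h1]
      · have h2 : l = k := by
          have h3 : g - (n + 1) ≤ l.val := h1
          refine Fin.ext ?_
          rw [hk]
          omega
        rw [h2, hAv]
    · refine ih M hM ?_
      intro l hl
      omega

/-- T5 -/
theorem sp_generated {g : ℕ} (M : Matrix (Fin g ⊕ Fin g) (Fin g ⊕ Fin g) ℤ) (hM : IsSp M) :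
    GenProd M :=
  T5_main g M hM fun l hl => absurd hl (by omega)

end Pool.Agent.helper76.BQ
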