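import Pool.Agent.helper28.BQ.SpecK

namespace BQ

theorem TB_first (F : Type) [Field F] [NumberField F] (c : (F →+* ℝ) → ℝ)
    (h : ∀ a : F, IsIntegral ℤ a → ∑ v : F →+* ℝ, c v * v a = 0) : c = 0 := by
  have h1 : ∀ x : F, ∑ v : F →+* ℝ, c v * v x = 0 := by
    intro x
    have hx : IsAlgebraic ℤ x :=
      (IsFractionRing.isAlgebraic_iff ℤ ℚ F).2 (Algebra.IsAlgebraic.isAlgebraic x)
    obtain ⟨y, hy0, hy⟩ := hx.exists_integral_multiple
    have h2 := h _ hy
    have h3 : ∑ v : F →+* ℝ, c v * v (y • x) = (y : ℝ) * ∑ v : F →+* ℝ, c v * v x := by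
      rw [Finset.mul_sum]
      refine Finset.sum_congr rfl fun v _ => ?_
      rw [zsmul_eq_mul, map_mul, map_intCast]
      ring
    rw [h3] at h2
    rcases mul_eq_zero.1 h2 with h4 | h4
    · exact absurd (by exact_mod_cast h4) hy0
    · exact h4
  have hli := linearIndependent_monoidHom F ℝ
  have hinj : Function.Injective (fun v : F →+* ℝ => (v : F →* ℝ)) := by
    intro v w hvw
    ext x
    exact DFunLike.congr_fun hvw x
  have h5 := hli.comp _ hinj
  rw [Fintype.linearIndependent_iff] at h5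
  have h6 := h5 c (by
    funext x
    simp only [Finset.sum_apply, Pi.smul_apply, smul_eq_mul, Function.comp]
    exact h1 x)
  funext v
  exact h6 v

theorem TB : TB_stmt := by
  intro F _ _ _
  refine ⟨TB_first F, fun t e he => ?_⟩
  have htop : Submodule.span ℝ (Set.range fun (x : F) (v : F →+* ℝ) => v x) = ⊤ := by
    by_contra hne
    obtain ⟨f, hf0, hf⟩ := Submodule.exists_le_ker_of_lt_top _ (lt_top_iff_ne_top.2 hne)
    classical
    have hfx : ∀ x : (F →+* ℝ) → ℝ, f x = ∑ v, x v * f (Pi.single v 1) := by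
      intro x
      rw [LinearMap.pi_apply_eq_sum_univ f x]
      refine Finset.sum_congr rfl fun v _ => ?_
      rw [smul_eq_mul]
      congr 2
      funext w
      rw [Pi.single_apply]
      by_cases h : v = w
      · subst h; simp
      · rw [if_neg h, if_neg (Ne.symm h)]
    have hc := TB_first F (fun v => f (Pi.single v 1)) (fun a _ => by
      have h2 : (fun v : F →+* ℝ => v a) ∈ LinearMap.ker f :=
        hf (Submodule.subset_span ⟨a, rfl⟩)
      rw [LinearMap.mem_ker, hfx] at h2
      rw [← h2]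
      exact Finset.sum_congr rfl fun v _ => mul_comm _ _)
    refine hf0 (LinearMap.ext fun x => ?_)
    rw [hfx x, LinearMap.zero_apply]
    refine Finset.sum_eq_zero fun v _ => ?_
    have h3 := congrFun hc v
    simp only [Pi.zero_apply] at h3
    rw [h3, mul_zero]
  have ht : t ∈ Submodule.span ℝ (Set.range fun (x : F) (v : F →+* ℝ) => v x) := by
    rw [htop]; exact Submodule.mem_top
  obtain ⟨c, hc⟩ := Finsupp.mem_span_range_iff_exists_finsupp.1 ht
  set M : ℝ := 1 + ∑ x ∈ c.support, ∑ v : F →+* ℝ, |v x| with hM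
  have hMpos : 0 < M := by
    have : 0 ≤ ∑ x ∈ c.support, ∑ v : F →+* ℝ, |v x| :=
      Finset.sum_nonneg fun x _ => Finset.sum_nonneg fun v _ => abs_nonneg _
    linarith
  have hq : ∀ x : F, ∃ q : ℚ, |(q : ℝ) - c x| < e / M := by
    intro x
    obtain ⟨q, h1, h2⟩ := exists_rat_btwn (show c x < c x + e / M by
      have := div_pos he hMpos
      linarith)
    exact ⟨q, by rw [abs_lt]; constructor <;> linarith [div_pos he hMpos]⟩
  choose q hq using hq
  refine ⟨∑ x ∈ c.support, (q x : F) * x, fun v => ?_⟩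
  have h1 : v (∑ x ∈ c.support, (q x : F) * x) - t v =
      ∑ x ∈ c.support, ((q x : ℝ) - c x) * v x := by
    rw [← hc, Finsupp.sum, Finset.sum_apply, map_sum, ← Finset.sum_sub_distrib]
    refine Finset.sum_congr rfl fun x _ => ?_
    rw [map_mul, map_ratCast, Pi.smul_apply, smul_eq_mul]
    ring
  rw [h1]
  calc |∑ x ∈ c.support, ((q x : ℝ) - c x) * v x|
      ≤ ∑ x ∈ c.support, |((q x : ℝ) - c x) * v x| := Finset.abs_sum_le_sum_abs _ _
    _ ≤ ∑ x ∈ c.support, e / M * ∑ w : F →+* ℝ, |w x| := by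
        refine Finset.sum_le_sum fun x _ => ?_
        rw [abs_mul]
        refine mul_le_mul (hq x).le ?_ (abs_nonneg _) (div_pos he hMpos).le
        exact Finset.single_le_sum (f := fun w : F →+* ℝ => |w x|) (fun w _ => abs_nonneg _)
          (Finset.mem_univ v)
    _ = e / M * (M - 1) := by rw [← Finset.mul_sum, hM]; ring
    _ < e := by
        rw [mul_sub, div_mul_cancel₀ _ hMpos.ne', mul_one]
        linarith [div_pos he hMpos]

end BQ
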